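import Pool.Agent.Run7.h45.IA5

/-!
# Q1 implies its equivariant form for cyclic groups of automorphisms of order prime to `p`

Let `K` be a normal subgroup of the finite group `L` with `L / K` cyclic of order prime to `p`, and let `P` be a
Sylow `p`-subgroup of `L`; then `P ≤ K` and `N_L(P)` acts by conjugation on the characters of `K` and on those
of `K ∩ N_L(P) = N_K(P)`. For instance `L = K ⋊ ⟨α⟩` for an automorphism `α` of `K` of order prime to `p` with
`α(P) = P`. The theorem says that Q1 for all finite groups is equivalent to the following stronger form: there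
is a bijection from `Irr_{p'}(K)` onto `Irr_{p'}(N_K(P))` which commutes with the action of `N_L(P)` such that the
degrees are congruent modulo `p` up to sign.

Proof. Let `w(d)` be the class of `d` modulo `p` up to sign, in the integral group ring `R` of the squares modulo
`p`. Let `m = |L : K|` and let `M_d` be the subgroup between `K` and `L` with `|M_d : K| = d`. A character `θ` of
`K` whose stabilizer in `M_d` is `T` has `|T : K|` extensions to `T`, and each of them induces to an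
irreducible character of `M_d`. Therefore `d w(d)⁻¹ ∑ w(χ(1)) = ∑ f(|T_θ : K|) w(θ(1))`, where `χ` runs
over `Irr(M_d)`, `θ` over `Irr(K)` and `f(s) = s² w(s)⁻¹`. We write `f(s)` as the sum of `h(e)` over the divisors
`e` of `s`; `h` is multiplicative and
`h(q^(a+1)) = (q² w(q)⁻¹)^a (q² w(q)⁻¹ - 1)` is not a zero divisor of `R`. So
`d w(d)⁻¹ ∑ w(χ(1)) = ∑_{e | d} h(e) B_e`, where `B_e` is the sum of `w(θ(1))` over the `M_e`-invariant `θ`. The
same holds for the Sylow normalizers. Q1 for the groups `M_d` says that the left hand sides are the same for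
`M_d` and `N_{M_d}(P)`, so the elements `B_e` are the same by induction. Hence all numbers of fixed points are
equal, and the two sets are isomorphic as sets with an action of `N_L(P)`.
-/

set_option autoImplicit false
set_option linter.unusedSectionVars false
set_option linter.style.haveILetI false

noncomputable section

namespace Pool.Agent.Results.MP_5ecade_al.EquivariantBijections

/-- `χ` is the character of an irreducible complex representation of `G`. -/
def IsIrr {G : Type} [Group G] (χ : G → ℂ) : Prop :=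
  ∃ (V : Type) (_ : AddCommGroup V) (_ : Module ℂ V) (_ : FiniteDimensional ℂ V)
    (ρ : Representation ℂ G V), ρ.IsIrreducible ∧ χ = ρ.character

/-- The set `Irr_{p'}(G)` of the irreducible characters of `G` of degree prime to `p`. -/
def IrrP (p : ℕ) (G : Type) [Group G] : Type :=
  {χ : G → ℂ // IsIrr χ ∧ ∃ d : ℕ, χ 1 = (d : ℂ) ∧ ¬ p ∣ d}

/-- The normalizer of a Sylow subgroup. -/
abbrev N {p : ℕ} {G : Type} [Group G] (P : Sylow p G) : Subgroup G :=
  Subgroup.normalizer ((P : Subgroup G) : Set G)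

/-- The bijection `e` preserves the degrees modulo `p` up to sign. -/
def Congr {p : ℕ} {G H : Type} [Group G] [Group H] (e : IrrP p G ≃ IrrP p H) : Prop :=
  ∀ (χ : IrrP p G) (m n : ℕ), χ.1 1 = (m : ℂ) → (e χ).1 1 = (n : ℂ) →
    (m : ℤ) ≡ n [ZMOD p] ∨ (m : ℤ) ≡ -n [ZMOD p]

/-- The bijection of Q1 for `G` and `P`: from `Irr_{p'}(G)` onto `Irr_{p'}(N_G(P))` with degrees congruent
up to sign modulo `p`. -/
def HasBijection {p : ℕ} {G : Type} [Group G] (P : Sylow p G) : Prop :=
  ∃ e : IrrP p G ≃ IrrP p (N P), Congr e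

/-- There is a bijection from `Irr_{p'}(K)` onto `Irr_{p'}(K ∩ N_L(P))` with degrees congruent up to sign
modulo `p`, which commutes with the conjugation by the elements `x` of `N_L(P)`: if `χ'` is the
`x`-conjugate of `χ` then `e χ'` is the `x`-conjugate of `e χ`. -/
def HasEquivariantBijection {p : ℕ} {L : Type} [Group L] (K : Subgroup L) (P : Sylow p L) : Prop :=
  ∃ e : IrrP p K ≃ IrrP p (K ⊓ N P : Subgroup L), Congr e ∧
    ∀ x ∈ N P, ∀ χ χ' : IrrP p K, (∀ g h : K, (h : L) = x * g * x⁻¹ → χ'.1 h = χ.1 g) →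
      ∀ g h : (K ⊓ N P : Subgroup L), (h : L) = x * g * x⁻¹ → (e χ').1 h = (e χ).1 g

/-- `C` is closed under normal subgroups with cyclic factor group of order prime to `p`. -/
def Closed (p : ℕ) (C : ∀ (G : Type) [Group G], Prop) : Prop :=
  ∀ (L : Type) [Group L] [Finite L], C L → ∀ (K : Subgroup L) [K.Normal], IsCyclic (L ⧸ K) →
    ¬ p ∣ K.index → C K

/-- Q1 at `p` for the finite groups in `C`. -/
def Q1 (p : ℕ) (C : ∀ (G : Type) [Group G], Prop) : Prop :=
  ∀ (G : Type) [Group G] [Finite G], C G → ∀ P : Sylow p G, HasBijection P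

section

open Pool.Agent.K3h3.MK Pool.Agent.K3h3.KB Pool.Agent.K3h83.IN

variable {p : ℕ} [hp : Fact p.Prime] {G : Type} [Group G] [Finite G]

theorem deg_iff {χ : G → ℂ} (h : IsIrr χ) {d : ℕ} : χ 1 = (d : ℂ) ↔ d = ndeg χ := by
  constructor
  · intro h1
    exact (ndeg_eq h1.symm).symm
  · rintro rfl
    exact (ndeg_cast h).symm

theorem cong_iff (m n : ℤ) : (m ≡ n [ZMOD p] ∨ m ≡ -n [ZMOD p]) ↔
    ((m : ZMod p)) ^ 2 = (n : ZMod p) ^ 2 := by
  rw [sq_eq_sq_iff_eq_or_eq_neg, ← ZMod.intCast_eq_intCast_iff, ← ZMod.intCast_eq_intCast_iff]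
  simp

theorem deg_prime_iff {χ : G → ℂ} (h1 : IsIrr χ) : (∃ d : ℕ, χ 1 = (d : ℂ) ∧ ¬ p ∣ d) ↔
    (ndeg χ : ZMod p) ≠ 0 := by
  constructor
  · rintro ⟨d, h2, h3⟩
    rw [deg_iff h1] at h2
    rw [← h2]
    exact fun h => h3 ((ZMod.natCast_eq_zero_iff _ _).mp h)
  · intro h2
    exact ⟨ndeg χ, (deg_iff h1).mpr rfl, fun h => h2 ((ZMod.natCast_eq_zero_iff _ _).mpr h)⟩

/-- the two descriptions of `Irr_{p'}(G)` -/
def eqv (p : ℕ) [Fact p.Prime] (G : Type) [Group G] [Finite G] : IrrP p G ≃ X p G :=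
  Equiv.subtypeEquivRight fun χ => by
    constructor
    · rintro ⟨h1, h2⟩
      exact ⟨h1, (deg_prime_iff h1).mp h2⟩
    · rintro ⟨h1, h2⟩
      exact ⟨h1, (deg_prime_iff h1).mpr h2⟩

theorem kap_eq_iff {H : Type} [Group H] [Finite H] (χ : X p G) (ψ : X p H) :
    kap p ψ = kap p χ ↔ ((ndeg χ.1 : ZMod p)) ^ 2 = (ndeg ψ.1 : ZMod p) ^ 2 := by
  unfold kap
  rw [Units.ext_iff]
  simp only [Units.val_pow_eq_pow_val, Units.val_mk0]
  exact eq_comm

theorem bij_iff (H : Type) [Group H] [Finite H] :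
    (∃ e : IrrP p G ≃ IrrP p H, Congr e) ↔ wt (cl p) G = wt (cl p) H := by
  constructor
  · rintro ⟨e, he⟩
    refine wt_of_bij p (((eqv p G).symm.trans e).trans (eqv p H)) fun χ => ?_
    rw [kap_eq_iff]
    have h1 := he ((eqv p G).symm χ) (ndeg χ.1) (ndeg (e ((eqv p G).symm χ)).1)
      ((deg_iff χ.2.1).mpr rfl) ((deg_iff (e ((eqv p G).symm χ)).2.1).mpr rfl)
    rw [cong_iff, Int.cast_natCast, Int.cast_natCast] at h1
    exact h1
  · intro h
    obtain ⟨e, he⟩ := exists_bij p h
    refine ⟨((eqv p G).trans e).trans (eqv p H).symm, fun χ m n h1 h2 => ?_⟩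
    have h3 := he (eqv p G χ)
    rw [kap_eq_iff] at h3
    rw [deg_iff χ.2.1] at h1
    rw [deg_iff (((eqv p G).trans e).trans (eqv p H).symm χ).2.1] at h2
    rw [cong_iff, h1, h2, Int.cast_natCast, Int.cast_natCast]
    exact h3

end

section local'

open Pool.Agent.K3h3.MK Pool.Agent.K3h3.KB Pool.Agent.K3h83.IN

variable {p : ℕ} [hp : Fact p.Prime] {L : Type} [Group L] [Finite L]

/-- the characters in a class which are fixed by `x` -/
theorem card_fixed (H : Subgroup L) (x : L) (c : (ZMod p)ˣ) (Fi : (H → ℂ) → Prop)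
    (hFi : ∀ ψ : H → ℂ, Fi ψ ↔ ∀ g h : H, (h : L) = x * g * x⁻¹ → ψ h = ψ g) :
    {ψ : H → ℂ | (IsIrr ψ ∧ ((ndeg ψ : ZMod p)) ^ 2 = (c : ZMod p)) ∧ Fi ψ}.ncard =
      Nat.card {χ : IrrP p H // ((ndeg χ.1 : ZMod p)) ^ 2 = (c : ZMod p) ∧
        ∀ g h : H, (h : L) = x * g * x⁻¹ → χ.1 h = χ.1 g} := by
  rw [← Nat.card_coe_set_eq]
  refine Nat.card_congr
    { toFun := fun ψ => ⟨⟨ψ.1, ψ.2.1.1, (deg_prime_iff ψ.2.1.1).mpr fun h => ?_⟩, ψ.2.1.2,
        (hFi _).mp ψ.2.2⟩
      invFun := fun χ => ⟨χ.1.1, ⟨χ.1.2.1, χ.2.1⟩, (hFi _).mpr χ.2.2⟩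
      left_inv := fun _ => rfl
      right_inv := fun _ => rfl }
  have h1 := ψ.2.1.2
  rw [h, zero_pow two_ne_zero] at h1
  exact c.ne_zero h1.symm

/-- the conjugate character -/
theorem exists_conj (H : Subgroup L) (x : L) (hx : ∀ h ∈ H, x * h * x⁻¹ ∈ H)
    (hx' : ∀ h ∈ H, x⁻¹ * h * x ∈ H) (χ : IrrP p H) :
    ∃ χ' : IrrP p H, ∀ g h : H, (h : L) = x * g * x⁻¹ → χ'.1 h = χ.1 g := by
  let e : H ≃* H :=
    { toFun := fun h => ⟨x⁻¹ * h * x, hx' h h.2⟩
      invFun := fun h => ⟨x * h * x⁻¹, hx h h.2⟩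
      left_inv := fun h => Subtype.ext (by
        change x * (x⁻¹ * h * x) * x⁻¹ = h
        group)
      right_inv := fun h => Subtype.ext (by
        change x⁻¹ * (x * h * x⁻¹) * x = h
        group)
      map_mul' := fun a b => Subtype.ext (by
        change x⁻¹ * ((a * b : H) : L) * x = (x⁻¹ * a * x) * (x⁻¹ * b * x)
        rw [Subgroup.coe_mul]
        group) }
  obtain ⟨ψ, h1, d, h2, h3⟩ := χ
  refine ⟨⟨fun h => ψ (e h), Pool.Agent.Q90.WR.irr_comp e h1, d, ?_, h3⟩, fun g h hgh => ?_⟩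
  · change ψ (e 1) = d
    rw [map_one]
    exact h2
  · refine congrArg ψ (Subtype.ext ?_)
    change x⁻¹ * h * x = g
    rw [hgh]
    group

theorem BB_of_bij (K : Subgroup L) [K.Normal] (P : Sylow p L) (h : HasEquivariantBijection K P)
    (x : NN P) : Pool.Agent.Run7.h45.IA.BB p K.subtype (x : L) =
      Pool.Agent.Run7.h45.IA.BB p (Subgroup.inclusion (inf_le_right : K ⊓ NN P ≤ NN P)) x := by
  obtain ⟨e, h1, h2⟩ := h
  have key : ∀ c : (ZMod p)ˣ, (Pool.Agent.Run7.h45.IA.BB p K.subtype (x : L)).coeff c =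
      (Pool.Agent.Run7.h45.IA.BB p (Subgroup.inclusion (inf_le_right : K ⊓ NN P ≤ NN P)) x).coeff c := by
    intro c
    rw [Pool.Agent.Run7.h45.IA.coeff_BB, Pool.Agent.Run7.h45.IA.coeff_BB]
    congr 1
    have a1 := card_fixed (p := p) K (x : L) c (fun ψ => fixes K.subtype ψ (x : L)) fun ψ =>
      ⟨fun H g h hgh => H g h hgh.symm, fun H g h hgh => H g h hgh.symm⟩
    have a2 := card_fixed (p := p) (K ⊓ NN P) (x : L) c
      (fun ψ => fixes (Subgroup.inclusion (inf_le_right : K ⊓ NN P ≤ NN P)) ψ x) fun ψ =>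
      ⟨fun H g h hgh => H g h (Subtype.ext hgh.symm), fun H g h hgh => H g h (congrArg Subtype.val hgh).symm⟩
    refine a1.trans (Eq.trans ?_ a2.symm)
    refine Nat.card_congr (e.subtypeEquiv fun χ => and_congr ?_ ⟨fun H => ?_, fun H => ?_⟩)
    · have h3 := h1 χ (ndeg χ.1) (ndeg (e χ).1) ((deg_iff χ.2.1).mpr rfl)
        ((deg_iff (e χ).2.1).mpr rfl)
      rw [cong_iff, Int.cast_natCast, Int.cast_natCast] at h3
      rw [h3]
    · exact h2 x x.2 χ χ H
    · obtain ⟨χ', hχ'⟩ := exists_conj K (x : L) (fun g hg => (inferInstance : K.Normal).conj_mem g hg x)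
        (fun g hg => by
          have := (inferInstance : K.Normal).conj_mem g hg (x : L)⁻¹
          rwa [inv_inv] at this) χ
      have h4 := h2 x x.2 χ χ' hχ'
      have h5 : e χ' = e χ := by
        apply Subtype.ext
        funext k
        have hk : (x : L)⁻¹ * k * x ∈ K ⊓ NN P := by
          refine ⟨?_, (NN P).mul_mem ((NN P).mul_mem ((NN P).inv_mem x.2) k.2.2) x.2⟩
          have := (inferInstance : K.Normal).conj_mem (k : L) k.2.1 (x : L)⁻¹
          rwa [inv_inv] at this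
        have hk' : (k : L) = x * ((⟨_, hk⟩ : (K ⊓ NN P : Subgroup L)) : L) * (x : L)⁻¹ := by
          change (k : L) = x * ((x : L)⁻¹ * k * x) * (x : L)⁻¹
          group
        rw [h4 ⟨_, hk⟩ k hk', H ⟨_, hk⟩ k hk']
      have h6 := e.injective h5
      rw [h6] at hχ'
      exact hχ'
  ext c
  exact key c

end local'

open Pool.Agent.K3h3.MK Pool.Agent.K3h3.KB Pool.Agent.K3h83.IN in
/-- **Main theorem.** (1) Let `K` be a normal subgroup of the finite group `L` with `L / K` cyclic of order prime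
to `p`, and let `P` be a Sylow `p`-subgroup of `L`. There is a bijection from `Irr_{p'}(K)` onto
`Irr_{p'}(K ∩ N_L(P))` with degrees congruent up to sign modulo `p` which commutes with the action of
`N_L(P)` if and only if Q1 holds for all groups between `K` and `L`.
(2) Let `C` be a class of groups closed under normal subgroups with cyclic factor group of order prime to `p`
(for instance the class of all groups). Then Q1 holds at `p` for all finite groups in `C` if and only if
there are such equivariant bijections for all `L` in `C`, `K` and `P` as in (1). -/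
theorem result (p : ℕ) [Fact p.Prime] :
    (∀ (L : Type) [Group L] [Finite L] (K : Subgroup L) [K.Normal], IsCyclic (L ⧸ K) →
      ¬ p ∣ K.index → ∀ P : Sylow p L, (HasEquivariantBijection K P ↔
        ∀ M : Subgroup L, K ≤ M → ∀ R : Sylow p M, HasBijection R)) ∧
    ∀ C : ∀ (G : Type) [Group G], Prop, Closed p C →
      (Q1 p C ↔ ∀ (L : Type) [Group L] [Finite L], C L → ∀ (K : Subgroup L) [K.Normal],
        IsCyclic (L ⧸ K) → ¬ p ∣ K.index → ∀ P : Sylow p L, HasEquivariantBijection K P) := by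
  have main : ∀ (L : Type) [Group L] [Finite L] (K : Subgroup L) [K.Normal], IsCyclic (L ⧸ K) →
      ¬ p ∣ K.index → ∀ P : Sylow p L,
        (∀ M : Subgroup L, K ≤ M → ∀ (_ : M.Normal), IsCyclic (L ⧸ M) → ¬ p ∣ M.index →
          ∀ R : Sylow p M, HasBijection R) → HasEquivariantBijection K P := by
    intro L _ _ K _ hcyc hK P h
    obtain ⟨f, h1, h2, h3⟩ := Pool.Agent.Run7.h45.IA.equi K hK hcyc P fun S hKS hS hSc hSi hPS =>
      (bij_iff _).mp (h S hKS hS hSc hSi (P.subtype hPS))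
    let e : IrrP p K ≃ IrrP p (K ⊓ N P : Subgroup L) := ((eqv p K).trans h1.equiv).trans
      (eqv p (K ⊓ N P : Subgroup L)).symm
    have he : ∀ χ, (e χ).1 = f χ.1 := fun _ => rfl
    refine ⟨e, fun χ m n h4 h5 => ?_, fun x hx χ χ' hχ g k hgk => ?_⟩
    · rw [deg_iff χ.2.1] at h4
      rw [deg_iff (e χ).2.1] at h5
      rw [cong_iff, h4, h5, Int.cast_natCast, Int.cast_natCast, he]
      exact (h2 χ.1 χ.2.1 ((deg_prime_iff χ.2.1).mp χ.2.2)).symm
    · rw [he, he]
      exact h3 x hx χ.1 χ'.1 χ.2.1 ((deg_prime_iff χ.2.1).mp χ.2.2) hχ g k hgk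
  refine ⟨fun L _ _ K _ hcyc hK P => ⟨fun h M hKM R => ?_, fun h => ?_⟩, fun C hC => ⟨?_, ?_⟩⟩
  · exact (bij_iff _).mpr
      (Pool.Agent.Run7.h45.IA.wt_of_BB K hK hcyc P (BB_of_bij K P h) M hKM R)
  · exact main L K hcyc hK P fun M hKM _ _ _ R => h M hKM R
  · intro h L _ _ hL K _ hcyc hK P
    exact main L K hcyc hK P fun M _ hM hMc hMi R => h M (hC L hL M hMc hMi) R
  · intro h L _ _ hL P
    haveI : Subsingleton (L ⧸ (⊤ : Subgroup L)) := QuotientGroup.subsingleton_quotient_top
    obtain ⟨e, he, -⟩ := h L hL ⊤ isCyclic_of_subsingleton (by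
      rw [Subgroup.index_top]
      exact Nat.Prime.not_dvd_one Fact.out) P
    refine (bij_iff _).mpr ?_
    rw [wt_congr (cl p) (Subgroup.topEquiv (G := L)).symm, (bij_iff _).mp ⟨e, he⟩]
    exact wt_congr (cl p) (MulEquiv.subgroupCongr (top_inf_eq (NN P)))

end Pool.Agent.Results.MP_5ecade_al.EquivariantBijections
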