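import Pool.Agent.Run7.h45.IN8

/-!
# One congruence in groups of characteristic `r` decides

Let `p, q, r` be different primes such that `q` does not divide `(p - 1) / 2`. We reduce Q1 at the prime `p`, for
all finite groups, to congruences modulo `q` for the numbers of the characters with degrees in one class
modulo `p` up to sign, in the finite groups `H` which have a self-centralising elementary abelian normal
`r`-subgroup with a complement (so `F*(H) = O_r(H)`).

Proof. Let `∇(G)` be the difference of the numbers of characters of `G` and of `N_G(P)`, as an element of the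
integral group ring of the squares modulo `p`. The family of the groups `H` is closed under direct products with
the groups `A ⋊ D`, `A` the additive group of a field with `r ^ m` elements and `D` a group of units of order
`d`, and under wreath products with groups of order `q`. Let `k = (r ^ m - 1) / d`. Then
`∇(G × (A ⋊ D)) = ∇(G) (k [d] + d)`. By Dirichlet's theorem `d` can be chosen in every class modulo `p`, such that
`q` does not divide `k`. So the congruences for one class imply that `q` divides `∇(G)`; the wreath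
products show that then all powers of `q` divide `∇(G)` (the step of the starting tree). So `∇(H) = 0` for the
family. If `L` is a minimal counterexample to Q1 then its subgroups of index prime to `p` satisfy Q1 and
`∇(V ⋊ L)` is a positive multiple of `∇(L)`, `V` the regular module over the field with `r` elements.
-/

set_option autoImplicit false
set_option linter.unusedSectionVars false
set_option linter.style.haveILetI false

noncomputable section

namespace Pool.Agent.Results.MP_5ecade_al.OneCongruence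

/-- `χ` is the character of an irreducible complex representation of `G`. -/
def IsIrr {G : Type} [Group G] (χ : G → ℂ) : Prop :=
  ∃ (V : Type) (_ : AddCommGroup V) (_ : Module ℂ V) (_ : FiniteDimensional ℂ V)
    (ρ : Representation ℂ G V), ρ.IsIrreducible ∧ χ = ρ.character

/-- The set `Irr_{p'}(G)` of the irreducible characters of `G` of degree prime to `p`. -/
def IrrP (p : ℕ) (G : Type) [Group G] : Type :=
  {χ : G → ℂ // IsIrr χ ∧ ∃ d : ℕ, χ 1 = (d : ℂ) ∧ ¬ p ∣ d}

/-- The normalizer of a Sylow subgroup. -/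
abbrev N {p : ℕ} {G : Type} [Group G] (P : Sylow p G) : Subgroup G :=
  Subgroup.normalizer ((P : Subgroup G) : Set G)

/-- The bijection of Q1 for `G` and `P`: from `Irr_{p'}(G)` onto `Irr_{p'}(N_G(P))` with degrees congruent
up to sign modulo `p`. -/
def HasBijection {p : ℕ} {G : Type} [Group G] (P : Sylow p G) : Prop :=
  ∃ e : IrrP p G ≃ IrrP p (N P), ∀ (χ : IrrP p G) (m n : ℕ), χ.1 1 = (m : ℂ) → (e χ).1 1 = (n : ℂ) →
    (m : ℤ) ≡ n [ZMOD p] ∨ (m : ℤ) ≡ -n [ZMOD p]

/-- The number of the irreducible characters of `G` of degree congruent to `b` or `-b` modulo `p`. -/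
def M (p : ℕ) (b : ℤ) (G : Type) [Group G] : ℕ :=
  Nat.card {χ : G → ℂ // IsIrr χ ∧
    ∃ d : ℕ, χ 1 = (d : ℂ) ∧ ((d : ℤ) ≡ b [ZMOD p] ∨ (d : ℤ) ≡ -b [ZMOD p])}

/-- `C` is a class of groups closed under isomorphisms, subgroups of index prime to `p`, quotients,
central extensions with cyclic kernel, and extensions of `G ^ q` by groups of order `q` (`G` in `C`). -/
structure Admissible (p q : ℕ) (C : ∀ (G : Type) [Group G], Prop) : Prop where
  iso : ∀ (G H : Type) [Group G] [Group H] [Finite G], Nonempty (G ≃* H) → C G → C H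
  sub : ∀ (G : Type) [Group G] [Finite G] (H : Subgroup G), ¬ p ∣ H.index → C G → C H
  quo : ∀ (G : Type) [Group G] [Finite G] (K : Subgroup G) [K.Normal], C G → C (G ⧸ K)
  ext : ∀ (G : Type) [Group G] [Finite G] (K : Subgroup G) [K.Normal], K ≤ Subgroup.center G →
    IsCyclic K → C (G ⧸ K) → C G
  wr : ∀ (G H : Type) [Group G] [Group H] [Finite H] (K : Subgroup H) [K.Normal], K.index = q →
    Nonempty (K ≃* (Fin q → G)) → C G → C H

/-- The family: `H` has a nontrivial elementary abelian normal `r`-subgroup `V` with centralizer `V` and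
with a complement in the class `C`. -/
def Fam (r : ℕ) (C : ∀ (G : Type) [Group G], Prop) (H : Type) [Group H] : Prop :=
  ∃ V K : Subgroup H, V ≠ ⊥ ∧ V.Normal ∧ (∀ v ∈ V, v ^ r = 1) ∧
    Subgroup.centralizer (V : Set H) = V ∧ V.IsComplement' K ∧ C K

/-- Q1 at `p` for the finite groups in `C`. -/
def Q1 (p : ℕ) (C : ∀ (G : Type) [Group G], Prop) : Prop :=
  ∀ (G : Type) [Group G] [Finite G], C G → ∀ P : Sylow p G, HasBijection P

section

open Pool.Agent.K3h3.MK Pool.Agent.K3h3.KB Pool.Agent.K3h83.IN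

variable {p : ℕ} [hp : Fact p.Prime] {G : Type} [Group G] [Finite G]

theorem deg_iff {χ : G → ℂ} (h : IsIrr χ) {d : ℕ} : χ 1 = (d : ℂ) ↔ d = ndeg χ := by
  constructor
  · intro h1
    exact (ndeg_eq h1.symm).symm
  · rintro rfl
    exact (ndeg_cast h).symm

theorem cong_iff (m n : ℤ) : (m ≡ n [ZMOD p] ∨ m ≡ -n [ZMOD p]) ↔
    ((m : ZMod p)) ^ 2 = (n : ZMod p) ^ 2 := by
  rw [sq_eq_sq_iff_eq_or_eq_neg, ← ZMod.intCast_eq_intCast_iff, ← ZMod.intCast_eq_intCast_iff]
  simp

theorem deg_prime_iff {χ : G → ℂ} (h1 : IsIrr χ) : (∃ d : ℕ, χ 1 = (d : ℂ) ∧ ¬ p ∣ d) ↔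
    (ndeg χ : ZMod p) ≠ 0 := by
  constructor
  · rintro ⟨d, h2, h3⟩
    rw [deg_iff h1] at h2
    rw [← h2]
    exact fun h => h3 ((ZMod.natCast_eq_zero_iff _ _).mp h)
  · intro h2
    exact ⟨ndeg χ, (deg_iff h1).mpr rfl, fun h => h2 ((ZMod.natCast_eq_zero_iff _ _).mpr h)⟩

/-- the two descriptions of `Irr_{p'}(G)` -/
def eqv (p : ℕ) [Fact p.Prime] (G : Type) [Group G] [Finite G] : IrrP p G ≃ X p G :=
  Equiv.subtypeEquivRight fun χ => by
    constructor
    · rintro ⟨h1, h2⟩
      exact ⟨h1, (deg_prime_iff h1).mp h2⟩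
    · rintro ⟨h1, h2⟩
      exact ⟨h1, (deg_prime_iff h1).mpr h2⟩

theorem kap_eq_iff {H : Type} [Group H] [Finite H] (χ : X p G) (ψ : X p H) :
    kap p ψ = kap p χ ↔ ((ndeg χ.1 : ZMod p)) ^ 2 = (ndeg ψ.1 : ZMod p) ^ 2 := by
  unfold kap
  rw [Units.ext_iff]
  simp only [Units.val_pow_eq_pow_val, Units.val_mk0]
  exact eq_comm

theorem hasBijection_iff (P : Sylow p G) :
    HasBijection P ↔ wt (cl p) G = wt (cl p) (NN P) := by
  constructor
  · rintro ⟨e, he⟩
    refine wt_of_bij p (((eqv p G).symm.trans e).trans (eqv p (NN P))) fun χ => ?_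
    rw [kap_eq_iff]
    have h1 := he ((eqv p G).symm χ) (ndeg χ.1) (ndeg (e ((eqv p G).symm χ)).1)
      ((deg_iff χ.2.1).mpr rfl) ((deg_iff (e ((eqv p G).symm χ)).2.1).mpr rfl)
    rw [cong_iff, Int.cast_natCast, Int.cast_natCast] at h1
    exact h1
  · intro h
    obtain ⟨e, he⟩ := exists_bij p h
    refine ⟨((eqv p G).trans e).trans (eqv p (NN P)).symm, fun χ m n h1 h2 => ?_⟩
    have h3 := he (eqv p G χ)
    rw [kap_eq_iff] at h3
    rw [deg_iff χ.2.1] at h1
    rw [deg_iff (((eqv p G).trans e).trans (eqv p (NN P)).symm χ).2.1] at h2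
    rw [cong_iff, h1, h2, Int.cast_natCast, Int.cast_natCast]
    exact h3

/-- the number `M` as a coefficient -/
theorem coeff_M (b : ℤ) (u : (ZMod p)ˣ) (hu : ((u : (ZMod p)ˣ) : ZMod p) = b) (G : Type) [Group G]
    [Finite G] : (wt (cl p) G).coeff (u ^ 2) = M p b G := by
  rw [coeff_wt]
  congr 1
  refine Nat.card_congr
    { toFun := fun χ => ⟨χ.1.1, χ.1.2.1, ndeg χ.1.1, (deg_iff χ.1.2.1).mpr rfl, ?_⟩
      invFun := fun χ => ⟨⟨χ.1, χ.2.1, ?_⟩, ?_⟩
      left_inv := fun _ => rfl
      right_inv := fun _ => rfl }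
  · rw [cong_iff]
    have h1 := congrArg (fun v : (ZMod p)ˣ => (v : ZMod p)) χ.2
    simp only [kap, Units.val_pow_eq_pow_val, Units.val_mk0] at h1
    rw [hu] at h1
    simpa using h1
  · obtain ⟨d, h1, h2⟩ := χ.2.2
    rw [deg_iff χ.2.1] at h1
    rw [h1, cong_iff] at h2
    intro h3
    rw [Int.cast_natCast, h3, zero_pow two_ne_zero, ← hu] at h2
    exact pow_ne_zero 2 u.ne_zero h2.symm
  · obtain ⟨d, h1, h2⟩ := χ.2.2
    rw [deg_iff χ.2.1] at h1
    rw [h1, cong_iff] at h2
    unfold kap
    ext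
    simp only [Units.val_pow_eq_pow_val, Units.val_mk0]
    rw [hu]
    simpa using h2

end

open Pool.Agent.K3h3.MK Pool.Agent.Run7.h45 SemidirectProduct in
/-- the regular wreath products are in the class -/
theorem cls_wr {p q : ℕ} [Fact p.Prime] {C : ∀ (G : Type) [Group G], Prop} (hC : Admissible p q C)
    {S : Type} [CommGroup S] [Finite S] (hS : Nat.card S = q) (L : Type) [Group L] [Finite L]
    (hL : C L) : C (Wr L S) := by
  have hn : (inl : (S → L) →* Wr L S).range.Normal := by
    rw [range_inl_eq_ker_rightHom]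
    infer_instance
  have hq : q ≠ 0 := by
    rw [← hS]
    exact Nat.card_pos.ne'
  refine hC.wr L (Wr L S) (inl : (S → L) →* Wr L S).range ?_ ?_ hL
  · have h1 := (inl : (S → L) →* Wr L S).range.card_mul_index
    have h2 : Nat.card (inl : (S → L) →* Wr L S).range = Nat.card (S → L) :=
      Nat.card_congr (MonoidHom.ofInjective inl_injective).toEquiv.symm
    rw [h2, SemidirectProduct.card, hS] at h1
    exact Nat.eq_of_mul_eq_mul_left Nat.card_pos h1
  · haveI := Fintype.ofFinite S
    have e : S ≃ Fin q := (Finite.equivFin S).trans (finCongr hS)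
    exact ⟨(MonoidHom.ofInjective inl_injective).symm.trans
      { toFun := fun g i => g (e.symm i)
        invFun := fun g s => g (e s)
        left_inv := fun g => by
          funext s
          simp
        right_inv := fun g => by
          funext i
          simp
        map_mul' := fun _ _ => rfl }⟩

open Pool.Agent.K3h3.MK Pool.Agent.Run7.h45 in
/-- Let `p, q, r` be different primes, `q ∤ (p - 1) / 2`, `b` an integer prime to `p`, `n₀` a natural number
and `C` an admissible class of groups (for example all groups). Q1 holds at `p` for all finite groups in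
`C` if and only if `M_b(H) ≡ M_b(N_H(R))` modulo `q` for all finite groups `H` of the family of order at
least `n₀` and their Sylow `p`-subgroups `R`. -/
theorem result (p q r : ℕ) [Fact p.Prime] [Fact q.Prime] [Fact r.Prime] (hqp : q ≠ p) (hrp : r ≠ p)
    (hqr : q ≠ r) (h2 : ¬ q ∣ (p - 1) / 2) (b : ℤ) (hb : ¬ (p : ℤ) ∣ b) (n₀ : ℕ)
    (C : ∀ (G : Type) [Group G], Prop) (hC : Admissible p q C) :
    Q1 p C ↔ ∀ (H : Type) [Group H] [Finite H], Fam r C H → n₀ ≤ Nat.card H → ∀ R : Sylow p H,
      (M p b H : ℤ) ≡ M p b (N R) [ZMOD q] := by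
  have hC' : Pool.Agent.K3h83.PI.ClsP p C := ⟨hC.iso, hC.sub, hC.quo, hC.ext⟩
  obtain ⟨u, hu⟩ : ∃ u : (ZMod p)ˣ, (u : ZMod p) = b := by
    refine ⟨Units.mk0 (b : ZMod p) fun h => hb ((ZMod.intCast_zmod_eq_zero_iff_dvd b p).mp h), ?_⟩
    rw [Units.val_mk0]
  have hFam : ∀ (H : Type) [Group H] [Finite H], IN.FamW r C H → Fam r C H := by
    rintro H _ _ ⟨L, _, hL, V, K, h0, h1, h2, h3, h4, ⟨f⟩⟩
    haveI : Finite L := Finite.of_equiv K f.toEquiv
    exact ⟨V, K, h0, h1, h2, h3, h4, hC.iso L K ⟨f.symm⟩ hL⟩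
  constructor
  · rintro hQ H _ _ ⟨V, K, h0, h1, h2, h3, h4, h5⟩ - R
    have h6 := IN.spl_zero (C := C) hrp hC' (fun G _ _ hG P => (hasBijection_iff P).mp (hQ G hG P)) h5
      ⟨V, K, h1, h2, h3, h4, ⟨MulEquiv.refl K⟩⟩ R
    have h7 : (wt (cl p) H).coeff (u ^ 2) = (wt (cl p) (NN R)).coeff (u ^ 2) := by rw [h6]
    rw [coeff_M b u hu, coeff_M b u hu] at h7
    rw [h7]
  · intro hyp G _ _ hG P
    rw [hasBijection_iff]
    refine IN.all_of_cong (C := C) (S := Multiplicative (ZMod q)) (Fact.out : q.Prime) hqp hqr hrp h2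
      hC' (Nat.card_zmod q) (fun L _ _ hL => cls_wr (S := Multiplicative (ZMod q)) hC (Nat.card_zmod q) L hL)
      u n₀
      (fun H _ _ hH hn R => ?_) G hG P
    have h6 := hyp H (hFam H hH) hn R
    have h3 : (wt (cl p) H - wt (cl p) (NN R)).coeff (u ^ 2) =
      (wt (cl p) H).coeff (u ^ 2) - (wt (cl p) (NN R)).coeff (u ^ 2) := rfl
    rw [h3, coeff_M b u hu, coeff_M b u hu]
    exact h6.symm.dvd

end Pool.Agent.Results.MP_5ecade_al.OneCongruence
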