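import Pool.Agent.Run7.h45.IN5

/-!
# One-sided bounds for one class of degrees, for groups of characteristic `r`

Let `p ≠ r` be primes. We reduce Q1 at the prime `p`, for all finite groups, to one-sided inequalities with
error terms `o(|H|)`, for the characters with degrees in one class modulo `p` up to sign, and for a small class
of groups `H`: split extensions `H = V ⋊ (L × D)` with `V` a self-centralising elementary abelian normal
`r`-subgroup (so `F*(H) = O_r(H)`), `D` cyclic of order prime to `p r` and `L` as close to a simple group as the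
known reduction permits.

Proof. Let `∇(G)` be the difference of the numbers of characters of `G` and of `N_G(P)`, as an element of the
integral group ring of the squares modulo `p`. For an abelian group `V` of order prime to `p`
`|N_H(R)| ∇(V ⋊ L) = ∑ |N_H(R)_θ| [L : L_θ] ∇(L_θ)`, the sum over the `R`-invariant characters `θ` of `V`. By the
reduction theorem of the starting tree a minimal counterexample `L` to Q1 is reduced, its proper subgroups of
index prime to `p` satisfy Q1 and so `∇(V ⋊ L)` is a positive multiple of `∇(L)`. Let `G = V ⋊ L`, `V` the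
regular module over the field with `r` elements, let `A` be the additive group of a field with `r ^ m` elements,
`D` a subgroup of order `d` of its group of units and `k = (r ^ m - 1) / d`. Then
`∇(G × (A ⋊ D)) = ∇(G) (k [d] + d)`; the coefficient at `b` is `k` times the coefficient of `∇(G)` at `b / d`, plus
a constant. For `m → ∞` a one-sided bound `o(|H|)` for one class gives inequalities for all classes for `G`, so
for `L`.
-/

set_option autoImplicit false
set_option linter.unusedSectionVars false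

noncomputable section

namespace Pool.Agent.Results.MP_5ecade_al.OneSidedBounds

/-- `χ` is the character of an irreducible complex representation of `G`. -/
def IsIrr {G : Type} [Group G] (χ : G → ℂ) : Prop :=
  ∃ (V : Type) (_ : AddCommGroup V) (_ : Module ℂ V) (_ : FiniteDimensional ℂ V)
    (ρ : Representation ℂ G V), ρ.IsIrreducible ∧ χ = ρ.character

/-- The set `Irr_{p'}(G)` of the irreducible characters of `G` of degree prime to `p`. -/
def IrrP (p : ℕ) (G : Type) [Group G] : Type :=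
  {χ : G → ℂ // IsIrr χ ∧ ∃ d : ℕ, χ 1 = (d : ℂ) ∧ ¬ p ∣ d}

/-- The normalizer of a Sylow subgroup. -/
abbrev N {p : ℕ} {G : Type} [Group G] (P : Sylow p G) : Subgroup G :=
  Subgroup.normalizer ((P : Subgroup G) : Set G)

/-- The bijection of Q1 for `G` and `P`: from `Irr_{p'}(G)` onto `Irr_{p'}(N_G(P))` with degrees congruent
up to sign modulo `p`. -/
def HasBijection {p : ℕ} {G : Type} [Group G] (P : Sylow p G) : Prop :=
  ∃ e : IrrP p G ≃ IrrP p (N P), ∀ (χ : IrrP p G) (m n : ℕ), χ.1 1 = (m : ℂ) → (e χ).1 1 = (n : ℂ) →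
    (m : ℤ) ≡ n [ZMOD p] ∨ (m : ℤ) ≡ -n [ZMOD p]

/-- The number of the irreducible characters of `G` of degree congruent to `b` or `-b` modulo `p`. -/
def M (p : ℕ) (b : ℤ) (G : Type) [Group G] : ℕ :=
  Nat.card {χ : G → ℂ // IsIrr χ ∧
    ∃ d : ℕ, χ 1 = (d : ℂ) ∧ ((d : ℤ) ≡ b [ZMOD p] ∨ (d : ℤ) ≡ -b [ZMOD p])}

/-- `L` is reduced for `p`: the center of `L` is cyclic, of order prime to `p` and contained in the derived
subgroup, solvable normal subgroups of `L` are central, two normal subgroups with central intersection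
are not both noncentral, the Sylow `p`-subgroups are not cyclic, and `L = M N_L(P)` for every
noncentral normal subgroup `M` of `L` and every Sylow `p`-subgroup `P`. -/
structure Reduced (p : ℕ) (L : Type) [Group L] : Prop where
  cyc : IsCyclic (Subgroup.center L)
  cop : ¬ p ∣ Nat.card (Subgroup.center L)
  der : Subgroup.center L ≤ commutator L
  rad : ∀ M : Subgroup L, M.Normal → Group.IsSolvable M → M ≤ Subgroup.center L
  mono : ∀ M₁ M₂ : Subgroup L, M₁.Normal → M₂.Normal → M₁ ⊓ M₂ ≤ Subgroup.center L →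
    M₁ ≤ Subgroup.center L ∨ M₂ ≤ Subgroup.center L
  syl : ∀ P : Sylow p L, ¬ IsCyclic P ∧
    ∀ M : Subgroup L, M.Normal → ¬ M ≤ Subgroup.center L → M ⊔ N P = ⊤

/-- `C` is a class of groups closed under isomorphisms, subgroups of index prime to `p`, quotients and
central extensions with cyclic kernel. -/
structure Admissible (p : ℕ) (C : ∀ (G : Type) [Group G], Prop) : Prop where
  iso : ∀ (G H : Type) [Group G] [Group H] [Finite G], Nonempty (G ≃* H) → C G → C H
  sub : ∀ (G : Type) [Group G] [Finite G] (H : Subgroup G), ¬ p ∣ H.index → C G → C H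
  quo : ∀ (G : Type) [Group G] [Finite G] (K : Subgroup G) [K.Normal], C G → C (G ⧸ K)
  ext : ∀ (G : Type) [Group G] [Finite G] (K : Subgroup G) [K.Normal], K ≤ Subgroup.center G →
    IsCyclic K → C (G ⧸ K) → C G

/-- The family: `H` has an elementary abelian normal `r`-subgroup `V` with centralizer `V`, and a
complement of `V` is isomorphic to `L × D` with `L` reduced in the class `C` and `D` cyclic of order
prime to `p` and `r`. -/
def Fam (p r : ℕ) (C : ∀ (G : Type) [Group G], Prop) (H : Type) [Group H] : Prop :=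
  ∃ (L D : Type) (_ : Group L) (_ : Group D), C L ∧ Reduced p L ∧ IsCyclic D ∧
    ¬ p ∣ Nat.card D ∧ ¬ r ∣ Nat.card D ∧
    ∃ V K : Subgroup H, V.Normal ∧ (∀ v ∈ V, v ^ r = 1) ∧
      Subgroup.centralizer (V : Set H) = V ∧ V.IsComplement' K ∧ Nonempty (K ≃* L × D)

/-- Q1 at `p` for the finite groups in `C`. -/
def Q1 (p : ℕ) (C : ∀ (G : Type) [Group G], Prop) : Prop :=
  ∀ (G : Type) [Group G] [Finite G], C G → ∀ P : Sylow p G, HasBijection P

/-- `M_b(H) ≤ M_b(N_H(R)) + o(|H|)` for the groups `H` of the family. -/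
def Upper (p r : ℕ) (C : ∀ (G : Type) [Group G], Prop) (b : ℤ) : Prop :=
  ∀ ε : ℝ, 0 < ε → ∃ n₀ : ℕ, ∀ (H : Type) [Group H] [Finite H], Fam p r C H → n₀ ≤ Nat.card H →
    ∀ R : Sylow p H, (M p b H : ℝ) ≤ M p b (N R) + ε * Nat.card H

/-- `M_b(N_H(R)) ≤ M_b(H) + o(|H|)` for the groups `H` of the family. -/
def Lower (p r : ℕ) (C : ∀ (G : Type) [Group G], Prop) (b : ℤ) : Prop :=
  ∀ ε : ℝ, 0 < ε → ∃ n₀ : ℕ, ∀ (H : Type) [Group H] [Finite H], Fam p r C H → n₀ ≤ Nat.card H →
    ∀ R : Sylow p H, (M p b (N R) : ℝ) ≤ M p b H + ε * Nat.card H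

/-- The McKay equality for the groups of the family. -/
def McKay (p r : ℕ) (C : ∀ (G : Type) [Group G], Prop) : Prop :=
  ∀ (H : Type) [Group H] [Finite H], Fam p r C H →
    ∀ R : Sylow p H, Nat.card (IrrP p H) = Nat.card (IrrP p (N R))

section

open Pool.Agent.K3h3.MK Pool.Agent.K3h3.KB Pool.Agent.K3h83.IN

variable {p : ℕ} [hp : Fact p.Prime] {G : Type} [Group G] [Finite G]

theorem deg_iff {χ : G → ℂ} (h : IsIrr χ) {d : ℕ} : χ 1 = (d : ℂ) ↔ d = ndeg χ := by
  constructor
  · intro h1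
    exact (ndeg_eq h1.symm).symm
  · rintro rfl
    exact (ndeg_cast h).symm

theorem cong_iff (m n : ℤ) : (m ≡ n [ZMOD p] ∨ m ≡ -n [ZMOD p]) ↔
    ((m : ZMod p)) ^ 2 = (n : ZMod p) ^ 2 := by
  rw [sq_eq_sq_iff_eq_or_eq_neg, ← ZMod.intCast_eq_intCast_iff, ← ZMod.intCast_eq_intCast_iff]
  simp

theorem deg_prime_iff {χ : G → ℂ} (h1 : IsIrr χ) : (∃ d : ℕ, χ 1 = (d : ℂ) ∧ ¬ p ∣ d) ↔
    (ndeg χ : ZMod p) ≠ 0 := by
  constructor
  · rintro ⟨d, h2, h3⟩
    rw [deg_iff h1] at h2
    rw [← h2]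
    exact fun h => h3 ((ZMod.natCast_eq_zero_iff _ _).mp h)
  · intro h2
    exact ⟨ndeg χ, (deg_iff h1).mpr rfl, fun h => h2 ((ZMod.natCast_eq_zero_iff _ _).mpr h)⟩

/-- the two descriptions of `Irr_{p'}(G)` -/
def eqv (p : ℕ) [Fact p.Prime] (G : Type) [Group G] [Finite G] : IrrP p G ≃ X p G :=
  Equiv.subtypeEquivRight fun χ => by
    constructor
    · rintro ⟨h1, h2⟩
      exact ⟨h1, (deg_prime_iff h1).mp h2⟩
    · rintro ⟨h1, h2⟩
      exact ⟨h1, (deg_prime_iff h1).mpr h2⟩

theorem kap_eq_iff {H : Type} [Group H] [Finite H] (χ : X p G) (ψ : X p H) :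
    kap p ψ = kap p χ ↔ ((ndeg χ.1 : ZMod p)) ^ 2 = (ndeg ψ.1 : ZMod p) ^ 2 := by
  unfold kap
  rw [Units.ext_iff]
  simp only [Units.val_pow_eq_pow_val, Units.val_mk0]
  exact eq_comm

theorem hasBijection_iff (P : Sylow p G) :
    HasBijection P ↔ wt (cl p) G = wt (cl p) (NN P) := by
  constructor
  · rintro ⟨e, he⟩
    refine wt_of_bij p (((eqv p G).symm.trans e).trans (eqv p (NN P))) fun χ => ?_
    rw [kap_eq_iff]
    have h1 := he ((eqv p G).symm χ) (ndeg χ.1) (ndeg (e ((eqv p G).symm χ)).1)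
      ((deg_iff χ.2.1).mpr rfl) ((deg_iff (e ((eqv p G).symm χ)).2.1).mpr rfl)
    rw [cong_iff, Int.cast_natCast, Int.cast_natCast] at h1
    exact h1
  · intro h
    obtain ⟨e, he⟩ := exists_bij p h
    refine ⟨((eqv p G).trans e).trans (eqv p (NN P)).symm, fun χ m n h1 h2 => ?_⟩
    have h3 := he (eqv p G χ)
    rw [kap_eq_iff] at h3
    rw [deg_iff χ.2.1] at h1
    rw [deg_iff (((eqv p G).trans e).trans (eqv p (NN P)).symm χ).2.1] at h2
    rw [cong_iff, h1, h2, Int.cast_natCast, Int.cast_natCast]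
    exact h3

/-- the number `M` as a coefficient -/
theorem coeff_M (b : ℤ) (u : (ZMod p)ˣ) (hu : ((u : (ZMod p)ˣ) : ZMod p) = b) (G : Type) [Group G]
    [Finite G] : (wt (cl p) G).coeff (u ^ 2) = M p b G := by
  rw [coeff_wt]
  congr 1
  refine Nat.card_congr
    { toFun := fun χ => ⟨χ.1.1, χ.1.2.1, ndeg χ.1.1, (deg_iff χ.1.2.1).mpr rfl, ?_⟩
      invFun := fun χ => ⟨⟨χ.1, χ.2.1, ?_⟩, ?_⟩
      left_inv := fun _ => rfl
      right_inv := fun _ => rfl }
  · rw [cong_iff]
    have h1 := congrArg (fun v : (ZMod p)ˣ => (v : ZMod p)) χ.2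
    simp only [kap, Units.val_pow_eq_pow_val, Units.val_mk0] at h1
    rw [hu] at h1
    simpa using h1
  · obtain ⟨d, h1, h2⟩ := χ.2.2
    rw [deg_iff χ.2.1] at h1
    rw [h1, cong_iff] at h2
    intro h3
    rw [Int.cast_natCast, h3, zero_pow two_ne_zero, ← hu] at h2
    exact pow_ne_zero 2 u.ne_zero h2.symm
  · obtain ⟨d, h1, h2⟩ := χ.2.2
    rw [deg_iff χ.2.1] at h1
    rw [h1, cong_iff] at h2
    unfold kap
    ext
    simp only [Units.val_pow_eq_pow_val, Units.val_mk0]
    rw [hu]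
    simpa using h2

end

open Pool.Agent.K3h3.MK Pool.Agent.Run7.h45 in
/-- Let `p ≠ r` be primes, `b, c` integers prime to `p` and `C` an admissible class of groups (for example
all groups). Q1 holds at `p` for all finite groups in `C` (1) if and only if
`M_b(H) ≤ M_b(N_H(R)) + o(|H|)` and `M_c(N_H(R)) ≤ M_c(H) + o(|H|)` for the groups `H` of the family; (2) if
and only if the McKay equality and the first bound hold for the family; (3) if and only if the
McKay equality and the second bound hold for the family. -/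
theorem result (p r : ℕ) [Fact p.Prime] [Fact r.Prime] (hrp : r ≠ p) (b c : ℤ) (hb : ¬ (p : ℤ) ∣ b)
    (hc : ¬ (p : ℤ) ∣ c) (C : ∀ (G : Type) [Group G], Prop) (hC : Admissible p C) :
    (Q1 p C ↔ Upper p r C b ∧ Lower p r C c) ∧
    (Q1 p C ↔ McKay p r C ∧ Upper p r C b) ∧
    (Q1 p C ↔ McKay p r C ∧ Lower p r C c) := by
  have hC' : Pool.Agent.K3h83.PI.ClsP p C := ⟨hC.iso, hC.sub, hC.quo, hC.ext⟩
  have hunit : ∀ a : ℤ, ¬ (p : ℤ) ∣ a → ∃ u : (ZMod p)ˣ, (u : ZMod p) = a := by
    intro a ha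
    refine ⟨Units.mk0 (a : ZMod p) fun h => ha ((ZMod.intCast_zmod_eq_zero_iff_dvd a p).mp h), ?_⟩
    rw [Units.val_mk0]
  obtain ⟨u, hu⟩ := hunit b hb
  obtain ⟨v, hv⟩ := hunit c hc
  have hRed : ∀ (L : Type) [Group L], IN.Reduced p L ↔ Reduced p L := fun L _ =>
    ⟨fun h => ⟨h.cyc, h.cop, h.der, h.rad, h.mono, h.syl⟩,
      fun h => ⟨h.cyc, h.cop, h.der, h.rad, h.mono, h.syl⟩⟩
  have hFam : ∀ (H : Type) [Group H], IN.Fam p r C H ↔ Fam p r C H := by
    intro H _
    constructor
    · rintro ⟨L, D, _, _, h1, h2, h3⟩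
      exact ⟨L, D, inferInstance, inferInstance, h1, (hRed L).mp h2, h3⟩
    · rintro ⟨L, D, _, _, h1, h2, h3⟩
      exact ⟨L, D, inferInstance, inferInstance, h1, (hRed L).mpr h2, h3⟩
  -- Q1 gives everything
  have fwd : Q1 p C → ∀ (H : Type) [Group H] [Finite H], Fam p r C H → ∀ R : Sylow p H,
      wt (cl p) H = wt (cl p) (NN R) := by
    intro hQ H _ _ hH R
    exact IN.fam_zero hrp hC' (fun G _ _ hG P => (hasBijection_iff P).mp (hQ G hG P))
      ((hFam H).mpr hH) R
  have fM : Q1 p C → McKay p r C := by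
    intro hQ H _ _ hH R
    have h1 := congrArg (IN.aug p) (fwd hQ H hH R)
    rw [IN.aug_wt, IN.aug_wt] at h1
    rw [Nat.card_congr (eqv p H), Nat.card_congr (eqv p (N R))]
    exact_mod_cast h1
  have fE : ∀ (a : ℤ) (w : (ZMod p)ˣ), ((w : (ZMod p)ˣ) : ZMod p) = a → Q1 p C →
      ∀ (H : Type) [Group H] [Finite H], Fam p r C H → ∀ R : Sylow p H, M p a H = M p a (N R) := by
    intro a w hw hQ H _ _ hH R
    have h1 : (wt (cl p) H).coeff (w ^ 2) = (wt (cl p) (NN R)).coeff (w ^ 2) := by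
      rw [fwd hQ H hH R]
    rw [coeff_M a w hw, coeff_M a w hw] at h1
    exact_mod_cast h1
  have fU : Q1 p C → Upper p r C b := by
    intro hQ ε hε
    refine ⟨0, fun H _ _ hH _ R => ?_⟩
    rw [fE b u hu hQ H hH R]
    have : (0 : ℝ) ≤ ε * Nat.card H := by positivity
    linarith
  have fL : Q1 p C → Lower p r C c := by
    intro hQ ε hε
    refine ⟨0, fun H _ _ hH _ R => ?_⟩
    rw [fE c v hv hQ H hH R]
    have : (0 : ℝ) ≤ ε * Nat.card H := by positivity
    linarith
  -- the bounds for the coefficients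
  have bU : Upper p r C b → ∀ (G L : Type) [Group G] [Finite G] [Group L], IN.Spl r G L → C L →
      IN.Reduced p L → ∀ (P : Sylow p G) (w : (ZMod p)ˣ),
        (wt (cl p) G - wt (cl p) (NN P)).coeff (w ^ 2) ≤ 0 := by
    intro hU G L _ _ _ hS hL hR P w
    have h1 := IN.coeff_le (C := C) hrp hS hL hR u 1 (fun ε hε => by
      obtain ⟨n₀, h0⟩ := hU ε hε
      refine ⟨n₀, fun H _ _ hH hn R => ?_⟩
      have h2 := h0 H ((hFam H).mp hH) hn R
      have h3 : (wt (cl p) H - wt (cl p) (NN R)).coeff (u ^ 2) =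
        (wt (cl p) H).coeff (u ^ 2) - (wt (cl p) (NN R)).coeff (u ^ 2) := rfl
      rw [one_mul, h3, coeff_M b u hu, coeff_M b u hu]
      push_cast
      linarith) P w
    rwa [one_mul] at h1
  have bL : Lower p r C c → ∀ (G L : Type) [Group G] [Finite G] [Group L], IN.Spl r G L → C L →
      IN.Reduced p L → ∀ (P : Sylow p G) (w : (ZMod p)ˣ),
        0 ≤ (wt (cl p) G - wt (cl p) (NN P)).coeff (w ^ 2) := by
    intro hU G L _ _ _ hS hL hR P w
    have h1 := IN.coeff_le (C := C) hrp hS hL hR v (-1) (fun ε hε => by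
      obtain ⟨n₀, h0⟩ := hU ε hε
      refine ⟨n₀, fun H _ _ hH hn R => ?_⟩
      have h2 := h0 H ((hFam H).mp hH) hn R
      have h3 : (wt (cl p) H - wt (cl p) (NN R)).coeff (v ^ 2) =
        (wt (cl p) H).coeff (v ^ 2) - (wt (cl p) (NN R)).coeff (v ^ 2) := rfl
      rw [h3, coeff_M c v hv, coeff_M c v hv]
      push_cast
      linarith) P w
    linarith
  have mM : McKay p r C → ∀ (G L : Type) [Group G] [Finite G] [Group L], IN.Spl r G L → C L →
      IN.Reduced p L → ∀ (P : Sylow p G), ∑ w : (ZMod p)ˣ,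
        (wt (cl p) G - wt (cl p) (NN P)).coeff w = 0 := by
    intro hM G L _ _ _ hS hL hR P
    refine IN.aug_del (C := C) hrp hS hL hR (fun H _ _ hH R => ?_) P
    have h1 := hM H ((hFam H).mp hH) R
    rw [Nat.card_congr (eqv p H), Nat.card_congr (eqv p (N R))] at h1
    exact h1
  have nonsq : ∀ (G : Type) [Group G] [Finite G] (P : Sylow p G) (w : (ZMod p)ˣ),
      (∀ t, t ^ 2 ≠ w) → (wt (cl p) G - wt (cl p) (NN P)).coeff w = 0 := by
    intro G _ _ P w hw
    have h3 : (wt (cl p) G - wt (cl p) (NN P)).coeff w =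
      (wt (cl p) G).coeff w - (wt (cl p) (NN P)).coeff w := rfl
    rw [h3, coeff_nonsq p G hw, coeff_nonsq p (NN P) hw, sub_zero]
  have back : (∀ (G L : Type) [Group G] [Finite G] [Group L] [Finite L], IN.Spl r G L → C L →
      IN.Reduced p L → ∀ P : Sylow p G, wt (cl p) G = wt (cl p) (NN P)) → Q1 p C := by
    intro h G _ _ hG P
    exact (hasBijection_iff P).mpr (IN.main_red hrp hC' h G hG P)
  refine ⟨⟨fun hQ => ⟨fU hQ, fL hQ⟩, ?_⟩, ⟨fun hQ => ⟨fM hQ, fU hQ⟩, ?_⟩,
    ⟨fun hQ => ⟨fM hQ, fL hQ⟩, ?_⟩⟩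
  · rintro ⟨h1, h2⟩
    refine back fun G L _ _ _ _ hS hL hR P => IN.eq_of_coeff P fun w => ?_
    exact le_antisymm (bU h1 G L hS hL hR P w) (bL h2 G L hS hL hR P w)
  · rintro ⟨h1, h2⟩
    refine back fun G L _ _ _ _ hS hL hR P => IN.eq_of_coeff P fun w => ?_
    have h3 := mM h1 G L hS hL hR P
    have h4 : ∀ t ∈ Finset.univ, (wt (cl p) G - wt (cl p) (NN P)).coeff t ≤ 0 := by
      intro t _
      by_cases ht : ∃ s, s ^ 2 = t
      · obtain ⟨s, rfl⟩ := ht
        exact bU h2 G L hS hL hR P s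
      · push Not at ht
        exact (nonsq G P t ht).le
    exact (Finset.sum_eq_zero_iff_of_nonpos h4).mp h3 _ (Finset.mem_univ _)
  · rintro ⟨h1, h2⟩
    refine back fun G L _ _ _ _ hS hL hR P => IN.eq_of_coeff P fun w => ?_
    have h3 := mM h1 G L hS hL hR P
    have h4 : ∀ t ∈ Finset.univ, 0 ≤ (wt (cl p) G - wt (cl p) (NN P)).coeff t := by
      intro t _
      by_cases ht : ∃ s, s ^ 2 = t
      · obtain ⟨s, rfl⟩ := ht
        exact bL h2 G L hS hL hR P s
      · push Not at ht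
        exact (nonsq G P t ht).ge
    exact (Finset.sum_eq_zero_iff_of_nonneg h4).mp h3 _ (Finset.mem_univ _)

end Pool.Agent.Results.MP_5ecade_al.OneSidedBounds
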