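import Pool.Agent.Run7.h45.QP11
import Pool.Agent.Results.MP_5ecade_al.OneCongruence

/-!
# One class of degrees in primitive permutation groups decides

Let `p ≠ r` be primes and `b` an integer prime to `p`. We reduce Q1 at the prime `p`, for all finite groups,
to the statement that `M_b(H) - M_b(N_H(R))` is `|H| ^ o(1)` for the finite primitive permutation groups `H`
of affine type whose degree is a power of `r`; here `M_b(G)` is the number of the irreducible characters of
`G` of degree congruent to `b` or `-b` modulo `p`, for this one `b`.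

Proof. Let `D_b(G) = M_b(G) - M_b(N_G(P))`. Let `V` be an abelian group of order prime to `p` on which `L`
acts. Then `|N_L(P)| D_b(V ⋊ L)` is the sum of `|N_{L_θ}(P)| D_{b / [L : L_θ]}(L_θ)` over the `P`-invariant
characters `θ` of `V` (Clifford theory; the indices are prime to `p`). Call `L` good if
`D_{b / [L : K]}(K) ≥ 0` for all subgroups `K` of `L` of index prime to `p`, and `D_b(L) > 0`.

Let `G` be a counterexample of smallest order in `C`. So all `D_c` vanish on the proper subgroups of `G`, and
`D_c(G) > 0`, say, for some `c`. If `D_b(G) ≠ 0`, then `L = G` is good (up to sign). If `D_b(G) = 0`, choose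
a prime `t ≡ ± b / c` modulo `p` and a prime `q ≡ 1` modulo `p t`; then `L = C_q ⋊ (C_t × G)` is good, where
`C_t` acts faithfully on `C_q` and `G` trivially: a subgroup of index prime to `p` either has trivial `D`, or
involves `G`, and then its index is congruent to `1` (and `D_b` of it is a nonnegative multiple of `D_b(G)`
plus one of `D_c(G)`) or to `t`.

Let `e ≡ 1` modulo `p` be a prime, `e ≠ r`, and `T` elementary abelian of order `e ^ k`. Then `X = L × T` is
good as well. Let `E` be cyclic of order `e`, `W` a nontrivial irreducible `E`-module over the field with `r`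
elements, `M = E ≀ X` (regular action of `X`), `V = W ^ X`. This is a faithful irreducible `M`-module, and
the stabilizers of its characters in `M` are isomorphic to semidirect products `A ⋊ Y` with `A ≤ E ^ X`,
`Y ≤ X`. Hence `D_b(V ⋊ M) ≥ D_b(M)`, which is at least `1 / |X|` times the number of the characters of
`E ^ X` fixed by `L`, so at least `e ^ (e ^ k) / (|L| e ^ k)`, while the order of the primitive group
`V ⋊ M` is at most `c ^ (e ^ k)`, where `c` depends on `L`, `e`, `r` only.
-/

set_option autoImplicit false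
set_option linter.unusedSectionVars false

noncomputable section

namespace Pool.Agent.Results.MP_5ecade_al.PrimitiveGroups

/-- `χ` is the character of an irreducible complex representation of `G`. -/
def IsIrr {G : Type} [Group G] (χ : G → ℂ) : Prop :=
  ∃ (V : Type) (_ : AddCommGroup V) (_ : Module ℂ V) (_ : FiniteDimensional ℂ V)
    (ρ : Representation ℂ G V), ρ.IsIrreducible ∧ χ = ρ.character

/-- The set `Irr_{p'}(G)` of the irreducible characters of `G` of degree prime to `p`. -/
def IrrP (p : ℕ) (G : Type) [Group G] : Type :=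
  {χ : G → ℂ // IsIrr χ ∧ ∃ d : ℕ, χ 1 = (d : ℂ) ∧ ¬ p ∣ d}

/-- The normalizer of a Sylow subgroup. -/
abbrev N {p : ℕ} {G : Type} [Group G] (P : Sylow p G) : Subgroup G :=
  Subgroup.normalizer ((P : Subgroup G) : Set G)

/-- The bijection of Q1 for `G` and `P`: from `Irr_{p'}(G)` onto `Irr_{p'}(N_G(P))` with degrees congruent
up to sign modulo `p`. -/
def HasBijection {p : ℕ} {G : Type} [Group G] (P : Sylow p G) : Prop :=
  ∃ e : IrrP p G ≃ IrrP p (N P), ∀ (χ : IrrP p G) (m n : ℕ), χ.1 1 = (m : ℂ) → (e χ).1 1 = (n : ℂ) →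
    (m : ℤ) ≡ n [ZMOD p] ∨ (m : ℤ) ≡ -n [ZMOD p]

/-- The number of the irreducible characters of `G` of degree congruent to `b` or `-b` modulo `p`. -/
def M (p : ℕ) (b : ℤ) (G : Type) [Group G] : ℕ :=
  Nat.card {χ : G → ℂ // IsIrr χ ∧
    ∃ d : ℕ, χ 1 = (d : ℂ) ∧ ((d : ℤ) ≡ b [ZMOD p] ∨ (d : ℤ) ≡ -b [ZMOD p])}

/-- `C` is a class of groups closed under isomorphisms, subgroups, and semidirect products `V ⋊ L` of a
finite abelian group `V` of order prime to `p` and a finite group `L` in `C`. -/
structure Closed (p : ℕ) (C : ∀ (G : Type) [Group G], Prop) : Prop where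
  iso : ∀ (G H : Type) [Group G] [Group H], Nonempty (G ≃* H) → C G → C H
  sub : ∀ (G : Type) [Group G] (H : Subgroup G), C G → C H
  ext : ∀ (V L : Type) [CommGroup V] [Group L] [Finite V] [Finite L] (φ : L →* MulAut V),
    ¬ p ∣ Nat.card V → C L → C (V ⋊[φ] L)

/-- `H` has a maximal subgroup `M` in `C` with trivial core and an elementary abelian normal `r`-subgroup
`V` which is a complement of `M`. For finite `H` and a prime `r` this means that `H` is isomorphic to a
primitive permutation group of affine type whose degree is a power of `r` and whose point stabilizers are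
in `C`. -/
def Primitive (r : ℕ) (C : ∀ (G : Type) [Group G], Prop) (H : Type) [Group H] : Prop :=
  ∃ V M : Subgroup H, IsCoatom M ∧ M.normalCore = ⊥ ∧ V.Normal ∧ (∀ x ∈ V, ∀ y ∈ V, x * y = y * x) ∧
    (∀ x ∈ V, x ^ r = 1) ∧ V.IsComplement' M ∧ C M

/-- Q1 at `p` for the finite groups in `C`. -/
def Q1 (p : ℕ) (C : ∀ (G : Type) [Group G], Prop) : Prop :=
  ∀ (G : Type) [Group G] [Finite G], C G → ∀ P : Sylow p G, HasBijection P

open Pool.Agent.K3h3.MK Pool.Agent.K3h3.KB Pool.Agent.K3h83.IN

theorem hasBijection_iff {p : ℕ} [Fact p.Prime] {G : Type} [Group G] [Finite G] (P : Sylow p G) :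
    HasBijection P ↔ wt (cl p) G = wt (cl p) (NN P) := OneCongruence.hasBijection_iff P

theorem coeff_M {p : ℕ} [Fact p.Prime] (b : ℤ) (u : (ZMod p)ˣ)
    (hu : ((u : (ZMod p)ˣ) : ZMod p) = b) (G : Type) [Group G] [Finite G] :
    (wt (cl p) G).coeff (u ^ 2) = M p b G := OneCongruence.coeff_M b u hu G

/-- **One class of degrees in primitive groups.** Let `p ≠ r` be primes, `b` an integer prime to `p` and
`C` a class of groups closed under isomorphisms, subgroups and split extensions of abelian groups of order
prime to `p` by groups in `C` (for example all groups). Q1 holds at `p` for all finite groups in `C` if and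
only if, for every `ε > 0`, there is a constant `c` such that `|M_b(H) - M_b(N_H(R))| ≤ c |H| ^ ε` for all
finite primitive permutation groups `H` of affine type whose degree is a power of `r` and whose point
stabilizers are in `C`, and their Sylow `p`-subgroups `R`. -/
theorem result (p r : ℕ) [Fact p.Prime] [Fact r.Prime] (hrp : r ≠ p) (b : ℤ) (hb : ¬ (p : ℤ) ∣ b)
    (C : ∀ (G : Type) [Group G], Prop) (hC : Closed p C) :
    Q1 p C ↔ ∀ ε : ℝ, 0 < ε → ∃ c : ℝ, ∀ (H : Type) [Group H] [Finite H], Primitive r C H →
      ∀ R : Sylow p H, |(M p b H : ℝ) - M p b (N R)| ≤ c * (Nat.card H : ℝ) ^ ε := by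
  obtain ⟨u, hu⟩ : ∃ u : (ZMod p)ˣ, (u : ZMod p) = b := by
    refine ⟨Units.mk0 (b : ZMod p) fun h => hb ((ZMod.intCast_zmod_eq_zero_iff_dvd b p).mp h), ?_⟩
    rw [Units.val_mk0]
  have key := Run7.h45.QP.in_prim (r := r) (C := C) hrp u ⟨hC.iso, hC.sub, hC.ext⟩
  have h1 : Q1 p C ↔ ∀ (G : Type) [Group G] [Finite G], C G → Pool.Agent.K3h83.IN.Q1 p G :=
    ⟨fun h G _ _ hG P => (hasBijection_iff P).mp (h G hG P),
      fun h G _ _ hG P => (hasBijection_iff P).mpr (h G hG P)⟩
  rw [h1, key]
  have h2 : ∀ (H : Type) [Group H] [Finite H] (R : Sylow p H),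
      ((wt (cl p) H - wt (cl p) (NN R)).coeff (u ^ 2) : ℝ) = (M p b H : ℝ) - M p b (N R) := by
    intro H _ _ R
    have h3 : (wt (cl p) H - wt (cl p) (NN R)).coeff (u ^ 2) =
      (wt (cl p) H).coeff (u ^ 2) - (wt (cl p) (NN R)).coeff (u ^ 2) := rfl
    rw [h3, coeff_M b u hu, coeff_M b u hu]
    push_cast
    rfl
  constructor
  · intro h ε hε
    obtain ⟨c, hc⟩ := h ε hε
    exact ⟨c, fun H _ _ hH R => by rw [← h2]; exact hc H hH R⟩
  · intro h ε hε
    obtain ⟨c, hc⟩ := h ε hε
    exact ⟨c, fun H _ _ hH R => by rw [h2]; exact hc H hH R⟩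

end Pool.Agent.Results.MP_5ecade_al.PrimitiveGroups
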